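import Mathlib
import Pool.Agent.Run7.h103.UN.Forms

set_option autoImplicit false

/-!
# The predictable forms in `1`, `t`, `z` lie on one line, uniformly in `t`

Let `z` be a transcendental number which is not a U-number, for instance `e`, `π` or the logarithm of
a rational number, and let `F` be a finite set of pairwise multiplicatively independent bases, for
instance `{2, 10}`. For all `A` and `ε > 0` there is `R` such that for all `M ≥ R (K + 1)` and for all
bases `b` in `F` with at most one exception the following holds for EVERY real number `t`, for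
instance `t = π` (if `z = e`). Consider all numbers `(m t + n z + l) / q` with integers `m`, `n`, `q`
of absolute value at most `e ^ (A (K + 1))` and any integer `l`. Those for which some automaton with
at most `K` states which reads the digits in base `b` and predicts the next one makes at most
`A log (M / (K + 1))` errors among the first `M` digits have pairs `(m, n)` on one line through the
origin, which is not the line `m = 0`. So in base `b` one of the families `(m (t + z) + l) / q` and
`(m (t - z) + l) / q` with `m ≠ 0` has no predictable member at all.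

The constant `R` and the exceptional base do not depend on `t`. Digits may be replaced by the
differences between the digits and the letters of an arbitrary word of linear block complexity, and
the digits of `(m t + n z + l) / q` by those of a number `y` with
`|q y - (m t + n z + l)| ≤ e ^ (- ε M)`.

Proof. Two independent predictable forms give a relation `D z + l + r x + s y = 0` with predictable
`x` and `y`, whose coefficients are at most `e ^ (A' (K + 1))`. If there are such relations in two
bases for a sequence of scales, then in the residue field of the bounded germs of sequences of real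
numbers `z` is in the fields of two rings of represented germs which are linearly disjoint over the
ring of germs of bounded rational numbers (see `Pool.Agent.Run7.h103.UN`), so it is algebraic over
that ring, and `z` is a U-number.
-/

namespace Pool.Agent.Results.MP_363d4d_nt.AllPredictableForms

open Pool.Agent.Run7.h103.PF Pool.Agent.Run7.h103.UN

/-- (1) Let `z` be a transcendental number which is not a U-number, `F` a finite set of pairwise
multiplicatively independent bases, and for `b` in `F` let `u_b` be a word of linear block complexity
over `{0, ..., b - 1}`. For all `A` and `ε > 0` there is `R` such that for all `M`, `K` with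
`R (K + 1) ≤ M` and for all `b` in `F` with at most one exception the following holds for every real
number `t`: the pairs `(m, n)` for which there is a predictable form (see `PredictableForm`) are on
one line through the origin different from the line `m = 0`.

(2) In particular, for `z = e`, `π` or the logarithm of a rational number, for all `b` in `F` with at
most one exception, and for every real number `t`, no number `(m z + l) / q` with `m ≠ 0` is
predictable, and of the numbers `(m (t + z) + l) / q` with `m ≠ 0` and `(m' (t - z) + l') / q'` with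
`m' ≠ 0` only those of one of the two families can be predictable; for instance for `z = e` and
`t = π`. -/
theorem result :
    (∀ z : ℝ, Transcendental ℚ z → ¬ UNumber z → ∀ F : Finset ℕ, (∀ b ∈ F, 2 ≤ b) →
      (∀ b ∈ F, ∀ c ∈ F, b ≠ c → Independent b c) → ∀ (C : ℝ) (u : ℕ → ℕ → ℤ),
      (∀ b ∈ F, SimpleWord b C (u b)) → ∀ A ε : ℝ, 0 < ε →
      ∃ R : ℕ, ∀ M K : ℕ, R * (K + 1) ≤ M → ∃ c : ℕ, ∀ b ∈ F, b ≠ c →
        ∀ t : ℝ, ∃ m₀ n₀ : ℤ, m₀ ≠ 0 ∧ ∀ m n : ℤ,
          PredictableForm b (u b) A ε M K t z m n → m * n₀ = n * m₀) ∧
    (∀ z : ℝ, (z = Real.exp 1 ∨ z = Real.pi ∨ ∃ q : ℚ, 0 < q ∧ q ≠ 1 ∧ z = Real.log q) →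
      ∀ F : Finset ℕ, (∀ b ∈ F, 2 ≤ b) → (∀ b ∈ F, ∀ c ∈ F, b ≠ c → Independent b c) →
      ∀ (C : ℝ) (u : ℕ → ℕ → ℤ), (∀ b ∈ F, SimpleWord b C (u b)) → ∀ A ε : ℝ, 0 < ε →
      ∃ R : ℕ, ∀ M K : ℕ, R * (K + 1) ≤ M → ∃ c : ℕ, ∀ b ∈ F, b ≠ c →
        ∀ t : ℝ, (∀ m : ℤ, m ≠ 0 → ¬ PredictableForm b (u b) A ε M K t z 0 m) ∧
          ((∀ m : ℤ, m ≠ 0 → ¬ PredictableForm b (u b) A ε M K t z m m) ∨
            (∀ m : ℤ, m ≠ 0 → ¬ PredictableForm b (u b) A ε M K t z m (-m)))) := by
  refine ⟨fun z hz hU F hF2 hF C u hu A ε hε => forms F hF2 hF u hu hz hU A hε,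
    fun z hz F hF2 hF C u hu A ε hε => ?_⟩
  obtain ⟨hz1, hz2⟩ := special hz
  obtain ⟨R, hR⟩ := forms F hF2 hF u hu hz1 hz2 A hε
  refine ⟨R, fun M K hMK => ?_⟩
  obtain ⟨c, hc⟩ := hR M K hMK
  refine ⟨c, fun b hb hbc t => ?_⟩
  obtain ⟨m₀, n₀, hm₀, h⟩ := hc b hb hbc t
  refine ⟨fun m hm hp => ?_, ?_⟩
  · have h1 := h 0 m hp
    rw [zero_mul, eq_comm, mul_eq_zero] at h1
    rcases h1 with h1 | h1
    · exact hm h1
    · exact hm₀ h1
  · by_contra hcon
    push Not at hcon
    obtain ⟨⟨m, hm, hp⟩, m', hm', hp'⟩ := hcon
    have h1 := mul_left_cancel₀ hm (h m m hp)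
    have h2 : m' * n₀ = m' * -m₀ := by
      rw [h m' (-m') hp']
      ring
    have h3 := mul_left_cancel₀ hm' h2
    omega

end Pool.Agent.Results.MP_363d4d_nt.AllPredictableForms
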