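import Pool.Agent.Run7.h88.PE.Final

/-!
# The digits of `π + e` and `π - e` and linear recurrences with breaks

For a real number `x`, a base `b` and `L ≥ 0` let `N_b(x; k, L)` be the least `m` such that, apart
from `k` places, the first `L` digits of `x` in base `b` satisfy linear recurrences of order `m` over
`ℚ`: there are at most `k` places (breaks) such that the digits in every interval of places of
`{1, …, L}` without breaks satisfy a linear recurrence of order `m` (the recurrence may depend on the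
interval).  For `k = 0` this is the linear complexity of the first `L` digits, which is about `L / 2`
for random digits and bounded for `L → ∞` if and only if `x` is rational.  `N_b(x; k, L)` is at most
the `k`-error linear complexity, and it is at most `1` if at most `k` of the first `L` digits are
different from the preceding digit.

We show that the digits of `π + e` and of `π - e` are not both of low complexity in this sense, with
explicit constants.  For one base
`L ≤ (2 + 4 + … + 2 ^ (k + k' + 1)) (N + O(√(N log N)))`, `N = N_b(π + e; k, L) + N_b(π - e; k', L)`,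
where the constant is independent of `k`, `k'`, `L`, and the base.  For two bases the factor is at
most `3 ^ (k + k' + 1)`.  The same is true for two independent forms `α ξ + β e + γ` in an arbitrary
real number `ξ`.  In particular `π + e` and `π - e` have together at least `log M / log 2 - C` changes
of digits among the first `M` digits, in every base.

Proof.  A window `u < i ≤ v` of the digits of `x` of linear complexity `m` gives a rational
approximation of `b ^ u x` with a denominator at most `b ^ (m + O(√(m log m)))` and an error of about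
`b ^ (m - (v - u))` (Siegel's lemma, starting file `R354/LCone`).  The approximations of two forms
give one to `e`; for one base the power `b ^ u` of the base is a common factor of the denominators.
The continued fraction of `e` gives `|e - p / q| ≥ c / (q ^ 2 (1 + log q))`.  This bounds the next
break in terms of the last breaks of the two numbers, and then there is a recursion.
-/

set_option autoImplicit false

namespace Pool.Agent.Results.MP_363d4d_nt.DigitRecurrences

open Finset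

/-- the `i`-th digit of `x` after the point in base `b` -/
noncomputable def digit (b : ℕ) (x : ℝ) (i : ℕ) : ℤ := ⌊x * (b : ℝ) ^ i⌋ % (b : ℤ)

/-- The terms `s_(u+1), …, s_v` satisfy the linear recurrence
`s_(i+m) = c_0 s_i + … + c_(m-1) s_(i+m-1)`. -/
def Recurrence (s : ℕ → ℤ) (c : ℕ → ℚ) (u v m : ℕ) : Prop :=
  ∀ i : ℕ, u < i → i + m ≤ v → (s (i + m) : ℚ) = ∑ j ∈ range m, c j * (s (i + j) : ℚ)

/-- the linear complexity of the first `L` digits of `x` in base `b` with `k` breaks: the least `m`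
for which there are at most `k` places such that the digits in every interval `{u + 1, …, v}` of
places in `{1, …, L}` which contains none of them satisfy a linear recurrence of order `m` -/
noncomputable def complexity (b : ℕ) (x : ℝ) (k L : ℕ) : ℕ :=
  sInf {m | ∃ E : Finset ℕ, E.card ≤ k ∧ ∀ u v, v ≤ L → (∀ i ∈ E, i ≤ u ∨ v < i) →
    ∃ c : ℕ → ℚ, Recurrence (digit b x) c u v m}

/-- the function `m + C √((m+1) log (m+2))` -/
noncomputable def F (C : ℝ) (m : ℕ) : ℝ :=
  m + C * Real.sqrt (((m : ℝ) + 1) * Real.log ((m : ℝ) + 2))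

/-- the number of `i ≤ M` with different `i`-th and `(i+1)`-st digits -/
noncomputable def changes (b : ℕ) (x : ℝ) (M : ℕ) : ℕ :=
  ((Icc 1 M).filter fun i => digit b x i ≠ digit b x (i + 1)).card

/-- `α ξ + β e + γ` -/
noncomputable def form (ξ : ℝ) (f : ℚ × ℚ × ℚ) : ℝ :=
  f.1 * ξ + f.2.1 * Real.exp 1 + f.2.2

/-- `α β' ≠ α' β` -/
def Independent (f g : ℚ × ℚ × ℚ) : Prop := f.1 * g.2.1 ≠ g.1 * f.2.1

lemma attained (b : ℕ) (x : ℝ) (k L : ℕ) :
    ∃ E : Finset ℕ, E.card ≤ k ∧ ∀ u v, v ≤ L → (∀ i ∈ E, i ≤ u ∨ v < i) →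
      ∃ c : ℕ → ℚ, Recurrence (digit b x) c u v (complexity b x k L) := by
  have h : L ∈ {m | ∃ E : Finset ℕ, E.card ≤ k ∧ ∀ u v, v ≤ L → (∀ i ∈ E, i ≤ u ∨ v < i) →
      ∃ c : ℕ → ℚ, Recurrence (digit b x) c u v m} := by
    refine ⟨∅, by simp, fun u v hv _ => ⟨fun _ => 0, fun i h1 h2 => ?_⟩⟩
    omega
  exact Nat.sInf_mem ⟨L, h⟩

/-- the breaks, numbered from `0` -/
lemma breaks (b : ℕ) (x : ℝ) (k L : ℕ) :
    ∃ E : Finset ℕ, E.card ≤ k ∧ ∀ u v, u ≤ v → v ≤ L → (∀ i ∈ E, i < u ∨ v ≤ i) →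
      ∃ c, Run7.h88.PE.Rec x b u v (complexity b x k L) c := by
  classical
  obtain ⟨E, hE, h⟩ := attained b x k L
  refine ⟨E.image (· - 1), Finset.card_image_le.trans hE, fun u v _ hv hi => ?_⟩
  obtain ⟨c, hc⟩ := h u v hv (fun i hiE => by
    rcases Nat.eq_zero_or_pos i with h0 | h0
    · left; omega
    · rcases hi (i - 1) (mem_image.2 ⟨i, hiE, rfl⟩) with h1 | h1
      · left; omega
      · right; omega)
  refine ⟨c, fun i h1 h2 => ?_⟩
  have h3 := hc (i + 1) (by omega) (by omega)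
  have e1 : ∀ j, i + 1 + j = i + j + 1 := fun j => by ring
  simp only [e1] at h3
  exact h3

lemma common_den (s : Finset ℚ) : ∃ M : ℤ, 1 ≤ M ∧ ∀ x ∈ s, ∃ A : ℤ, (M : ℝ) * (x : ℝ) = A := by
  classical
  refine ⟨∏ x ∈ s, (x.den : ℤ), ?_, ?_⟩
  · have : 0 < ∏ x ∈ s, (x.den : ℤ) := Finset.prod_pos fun x _ => by exact_mod_cast x.den_pos
    omega
  · intro x hx
    refine ⟨(∏ y ∈ s.erase x, (y.den : ℤ)) * x.num, ?_⟩
    rw [← Finset.mul_prod_erase s _ hx]
    have h1 : (x : ℝ) * x.den = x.num := by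
      have := Rat.mul_den_eq_num x
      exact_mod_cast congrArg (fun z : ℚ => (z : ℝ)) this
    push_cast
    linear_combination ((∏ y ∈ s.erase x, (y.den : ℝ))) * h1

/-- integral coefficients -/
lemma integral (f f' : ℚ × ℚ × ℚ) (hf : Independent f f') :
    ∃ A B Γ A' B' Γ' M : ℤ, 1 ≤ M ∧ A' * B - A * B' ≠ 0 ∧ ∀ ξ : ℝ,
      (M : ℝ) * form ξ f = A * ξ + B * Real.exp 1 + Γ ∧
      (M : ℝ) * form ξ f' = A' * ξ + B' * Real.exp 1 + Γ' := by
  obtain ⟨α, β, γ⟩ := f
  obtain ⟨α', β', γ'⟩ := f'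
  obtain ⟨M, hM, hs⟩ := common_den {α, β, γ, α', β', γ'}
  obtain ⟨A, hA⟩ := hs α (by simp)
  obtain ⟨B, hB⟩ := hs β (by simp)
  obtain ⟨G, hG⟩ := hs γ (by simp)
  obtain ⟨A', hA'⟩ := hs α' (by simp)
  obtain ⟨B', hB'⟩ := hs β' (by simp)
  obtain ⟨G', hG'⟩ := hs γ' (by simp)
  unfold Independent at hf
  simp only at hf
  have hMR : (1 : ℝ) ≤ M := by exact_mod_cast hM
  refine ⟨A, B, G, A', B', G', M, hM, ?_, fun ξ => ⟨?_, ?_⟩⟩
  · intro h
    apply hf
    have h1 : (A' : ℝ) * B - A * B' = 0 := by exact_mod_cast h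
    rw [← hA, ← hB, ← hA', ← hB'] at h1
    have h2 : (M : ℝ) ^ 2 * ((α' : ℝ) * β - α * β') = 0 := by linear_combination h1
    rcases mul_eq_zero.1 h2 with h3 | h3
    · have : (0 : ℝ) < (M : ℝ) ^ 2 := by positivity
      linarith
    · have h4 : (α : ℝ) * β' = α' * β := by linarith
      exact_mod_cast h4
  · simp only [form]
    rw [← hA, ← hB, ← hG]; ring
  · simp only [form]
    rw [← hA', ← hB', ← hG']; ring

/-- two forms in one base -/
theorem one_base (f f' : ℚ × ℚ × ℚ) (hf : Independent f f') : ∃ C : ℝ, 0 < C ∧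
    ∀ (ξ : ℝ) (b L k k' : ℕ), 2 ≤ b → (L : ℝ) ≤ (∑ i ∈ range (k + k' + 1), (2 : ℝ) ^ (i + 1)) *
      F C (complexity b (form ξ f) k L + complexity b (form ξ f') k' L) := by
  classical
  obtain ⟨A, B, Γ, A', B', Γ', M, hM, hΔ, hform⟩ := integral f f' hf
  obtain ⟨C, hC0, hC⟩ := Run7.h88.PE.one_final A B Γ A' B' Γ' M hM hΔ
  refine ⟨C, hC0, fun ξ b L k k' hb => ?_⟩
  obtain ⟨E, hE, h⟩ := breaks b (form ξ f) k L
  obtain ⟨E', hE', h'⟩ := breaks b (form ξ f') k' L
  exact hC ξ _ _ (hform ξ).1 (hform ξ).2 b L _ _ (k + k') (E ∪ E') hb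
    ((Finset.card_union_le _ _).trans (by omega))
    (fun u v huv hv hi => ⟨h u v huv hv (fun i hiE => hi i (mem_union_left _ hiE)),
      h' u v huv hv (fun i hiE => hi i (mem_union_right _ hiE))⟩)

theorem log_ge (b : ℕ) (hb : 2 ≤ b) : 0.69 ≤ Real.log b := Run7.h88.PE.log_b hb

/-- two forms in two bases -/
theorem two_bases (f f' : ℚ × ℚ × ℚ) (hf : Independent f f') : ∃ C : ℝ, 0 < C ∧
    ∀ (ξ : ℝ) (b b' L L' k k' : ℕ), 2 ≤ b → 2 ≤ b' →
      min (L * Real.log b) (L' * Real.log b') ≤ 3 ^ (k + k' + 1) *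
        (complexity b (form ξ f) k L * Real.log b +
          complexity b' (form ξ f') k' L' * Real.log b' + C * (Real.log b + Real.log b')) := by
  obtain ⟨A, B, Γ, A', B', Γ', M, hM, hΔ, hform⟩ := integral f f' hf
  obtain ⟨C, hC0, hC⟩ := Run7.h88.PE.two_final A B Γ A' B' Γ' M hM hΔ
  refine ⟨C, hC0, fun ξ b b' L L' k k' hb hb' => ?_⟩
  obtain ⟨E, hE, h⟩ := breaks b (form ξ f) k L
  obtain ⟨E', hE', h'⟩ := breaks b' (form ξ f') k' L'
  refine (hC ξ _ _ (hform ξ).1 (hform ξ).2 b b' L L' _ _ E E' hb hb' h h').trans ?_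
  have hl := log_ge b hb
  have hl' := log_ge b' hb'
  refine mul_le_mul_of_nonneg_right (pow_le_pow_right₀ (by norm_num) (by omega)) ?_
  have h1 : 0 ≤ (complexity b (form ξ f) k L : ℝ) * Real.log b := by positivity
  have h2 : 0 ≤ (complexity b' (form ξ f') k' L' : ℝ) * Real.log b' := by positivity
  have h3 : 0 ≤ C * (Real.log b + Real.log b') := by positivity
  linarith

/-- errors are breaks -/
theorem errors (b : ℕ) (x : ℝ) (k L m : ℕ) (s : ℕ → ℤ) (c : ℕ → ℚ)
    (h1 : ((Icc 1 L).filter fun i => s i ≠ digit b x i).card ≤ k) (h2 : Recurrence s c 0 L m) :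
    complexity b x k L ≤ m := by
  refine Nat.sInf_le ⟨(Icc 1 L).filter fun i => s i ≠ digit b x i, h1, fun u v hv hE => ⟨c, ?_⟩⟩
  intro i hi him
  have key : ∀ j, i ≤ j → j ≤ v → s j = digit b x j := by
    intro j h3 h4
    by_contra hne
    rcases hE j (by rw [mem_filter, mem_Icc]; exact ⟨⟨by omega, by omega⟩, hne⟩) with h | h <;> omega
  rw [← key (i + m) (by omega) him, h2 i (by omega) (by omega)]
  refine Finset.sum_congr rfl fun j hj => ?_
  rw [mem_range] at hj
  rw [key (i + j) (by omega) (by omega)]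

/-- changes of digits are breaks -/
theorem complexity_changes (b : ℕ) (x : ℝ) (M : ℕ) :
    complexity b x (changes b x M) (M + 1) ≤ 1 := by
  classical
  refine Nat.sInf_le ⟨((Icc 1 M).filter fun i => digit b x i ≠ digit b x (i + 1)).image (· + 1),
    Finset.card_image_le, fun u v hv hE => ⟨fun _ => 1, ?_⟩⟩
  intro i hi him
  rw [Finset.sum_range_one, add_zero, one_mul]
  by_contra hne
  have h1 : digit b x i ≠ digit b x (i + 1) := fun h => hne (by rw [h])
  rcases hE (i + 1) (mem_image.2 ⟨i, by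
    rw [mem_filter, mem_Icc]; exact ⟨⟨by omega, by omega⟩, h1⟩, rfl⟩) with h | h <;> omega

lemma F_mono {C : ℝ} (hC : 0 ≤ C) {m n : ℕ} (h : m ≤ n) : F C m ≤ F C n := by
  have h1 := Run7.h88.PE.err_mono h
  have h2 : (m : ℝ) ≤ n := by exact_mod_cast h
  have h3 := mul_le_mul_of_nonneg_left h1 hC
  exact add_le_add h2 h3

lemma F_linear (C ε : ℝ) (hC : 0 < C) (hε : 0 < ε) :
    ∃ K : ℝ, 0 ≤ K ∧ ∀ m : ℕ, F C m ≤ (1 + ε) * m + K := by
  obtain ⟨K, hK0, hK⟩ := Pool.Agent.R354.LC.G_linear (15 * ε / C) (by positivity)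
  refine ⟨C / 15 * K, by positivity, fun m => ?_⟩
  have h1 := hK m
  unfold Pool.Agent.R354.LC.G at h1
  have h2 : C / 15 * (m + 15 * Pool.Agent.W47.JL.err m) ≤ C / 15 * ((1 + 15 * ε / C) * m + K) :=
    mul_le_mul_of_nonneg_left h1 (by positivity)
  have h3 : C / 15 * ((1 + 15 * ε / C) * m + K) = C / 15 * m + ε * m + C / 15 * K := by
    field_simp
  rw [h3] at h2
  have h4 : F C m = m + C * Pool.Agent.W47.JL.err m := rfl
  rw [h4]
  linarith

lemma geom (n : ℕ) : ∑ i ∈ range n, (2 : ℝ) ^ (i + 1) = 2 ^ (n + 1) - 2 := by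
  induction n with
  | zero => simp
  | succ n ih => rw [Finset.sum_range_succ, ih]; ring

lemma pi_add : form Real.pi (1, 1, 0) = Real.pi + Real.exp 1 := by
  simp [form]

lemma pi_sub : form Real.pi (1, -1, 0) = Real.pi - Real.exp 1 := by
  simp [form]
  ring

lemma indep : Independent (1, 1, 0) (1, -1, 0) := by
  unfold Independent
  norm_num

/-- **Main theorem.**

(1) If a sequence of integers satisfies a linear recurrence of order `m` on the places `1, …, L` and
differs from the digits of `x` in at most `k` of these places, then the complexity with `k` breaks is at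
most `m`; if at most `k` of the digits `2, …, M + 1` are different from the preceding one, then the
complexity of the first `M + 1` digits with `k` breaks is at most `1`.

(2) Two independent forms in `ξ`, `e`, `1`, one base.

(3) Two independent forms in two bases.

(4) `N_b(π + e; k, L) + N_b(π - e; k', L) ≥ (1 / (2 + 4 + … + 2 ^ (k + k' + 1)) - ε) L` for large `L`,
uniformly in the base.

(5) Among the first `M + 1` digits of `π + e` and `π - e` there are together at least
`log M / log 2 - C` changes; and in two bases up to the logarithmic scale `X` at least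
`log (X / (log b + log b')) / log 3 - C`.

(6) For every finite set of pairwise independent forms there is `C` such that for every real `ξ`, every
scale `X` and every `k` all but at most one of the forms satisfy
`(N_b(y; k, L) + C) log b ≥ X / (2 · 3 ^ (2 k + 1))` for all bases `b` and all `L` with
`L log b ≥ X`. -/
theorem result :
    (∀ (b : ℕ) (x : ℝ),
      (∀ (k L m : ℕ) (s : ℕ → ℤ) (c : ℕ → ℚ),
        ((Icc 1 L).filter fun i => s i ≠ digit b x i).card ≤ k → Recurrence s c 0 L m →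
        complexity b x k L ≤ m) ∧
      ∀ M : ℕ, complexity b x (changes b x M) (M + 1) ≤ 1) ∧
    (∀ f f' : ℚ × ℚ × ℚ, Independent f f' → ∃ C : ℝ, 0 < C ∧
      ∀ (ξ : ℝ) (b L k k' : ℕ), 2 ≤ b → (L : ℝ) ≤ (∑ i ∈ range (k + k' + 1), (2 : ℝ) ^ (i + 1)) *
        F C (complexity b (form ξ f) k L + complexity b (form ξ f') k' L)) ∧
    (∀ f f' : ℚ × ℚ × ℚ, Independent f f' → ∃ C : ℝ, 0 < C ∧
      ∀ (ξ : ℝ) (b b' L L' k k' : ℕ), 2 ≤ b → 2 ≤ b' →
        min (L * Real.log b) (L' * Real.log b') ≤ 3 ^ (k + k' + 1) *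
          (complexity b (form ξ f) k L * Real.log b +
            complexity b' (form ξ f') k' L' * Real.log b' + C * (Real.log b + Real.log b'))) ∧
    (∀ (k k' : ℕ) (ε : ℝ), 0 < ε → ∃ L₀ : ℕ, ∀ b : ℕ, 2 ≤ b → ∀ L : ℕ, L₀ ≤ L →
      (1 / (∑ i ∈ range (k + k' + 1), (2 : ℝ) ^ (i + 1)) - ε) * L ≤
        (complexity b (Real.pi + Real.exp 1) k L : ℝ) +
          complexity b (Real.pi - Real.exp 1) k' L) ∧
    (∃ C : ℝ,
      (∀ b : ℕ, 2 ≤ b → ∀ M : ℕ, 1 ≤ M → Real.log M / Real.log 2 - C ≤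
        (changes b (Real.pi + Real.exp 1) M : ℝ) + changes b (Real.pi - Real.exp 1) M) ∧
      ∀ b b' : ℕ, 2 ≤ b → 2 ≤ b' → ∀ X : ℝ, 0 < X →
        Real.log (X / (Real.log b + Real.log b')) / Real.log 3 - C ≤
          (changes b (Real.pi + Real.exp 1) ⌊X / Real.log b⌋₊ : ℝ) +
            changes b' (Real.pi - Real.exp 1) ⌊X / Real.log b'⌋₊) ∧
    (∀ S : Finset (ℚ × ℚ × ℚ), (S : Set (ℚ × ℚ × ℚ)).Pairwise Independent → ∃ C : ℝ, 0 < C ∧
      ∀ (ξ X : ℝ) (k : ℕ), ∀ f ∈ S, ∀ g ∈ S,
        (∃ b L : ℕ, 2 ≤ b ∧ X ≤ L * Real.log b ∧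
          (complexity b (form ξ f) k L + C) * Real.log b < X / (2 * 3 ^ (2 * k + 1))) →
        (∃ b L : ℕ, 2 ≤ b ∧ X ≤ L * Real.log b ∧
          (complexity b (form ξ g) k L + C) * Real.log b < X / (2 * 3 ^ (2 * k + 1))) →
        f = g) := by
  classical
  refine ⟨fun b x => ⟨fun k L m s c h1 h2 => errors b x k L m s c h1 h2,
    complexity_changes b x⟩, one_base, two_bases, ?_, ?_, ?_⟩
  · intro k k' ε hε
    obtain ⟨C, hC0, hC⟩ := one_base _ _ indep
    obtain ⟨S, hS⟩ : ∃ S : ℝ, S = ∑ i ∈ range (k + k' + 1), (2 : ℝ) ^ (i + 1) := ⟨_, rfl⟩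
    have hS2 : 2 ≤ S := by
      rw [hS, geom]
      have : (2 : ℝ) ^ 2 ≤ 2 ^ (k + k' + 1 + 1) := pow_le_pow_right₀ (by norm_num) (by omega)
      linarith
    obtain ⟨K, hK0, hK⟩ := F_linear C ε hC0 hε
    obtain ⟨L₀, hL₀⟩ := exists_nat_gt (2 * K / ε)
    refine ⟨L₀, fun b hb L hL => ?_⟩
    have h1 := hC Real.pi b L k k' hb
    rw [pi_add, pi_sub, ← hS] at h1
    rw [← hS]
    have h2 := hK (complexity b (Real.pi + Real.exp 1) k L +
      complexity b (Real.pi - Real.exp 1) k' L)
    push_cast at h2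
    obtain ⟨N, hN⟩ : ∃ N : ℝ, N = (complexity b (Real.pi + Real.exp 1) k L : ℝ) +
      complexity b (Real.pi - Real.exp 1) k' L := ⟨_, rfl⟩
    have hN0 : 0 ≤ N := by rw [hN]; positivity
    rw [← hN] at h2 ⊢
    have hLR : (L₀ : ℝ) ≤ L := by exact_mod_cast hL
    have h3 : 2 * K / ε < L := hL₀.trans_le hLR
    rw [div_lt_iff₀ hε] at h3
    have hL0 : (0 : ℝ) ≤ L := Nat.cast_nonneg L
    have h4 : (L : ℝ) ≤ S * ((1 + ε) * N + K) :=
      h1.trans (mul_le_mul_of_nonneg_left h2 (by linarith))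
    have h5 : (L : ℝ) / S ≤ (1 + ε) * N + K := by
      rw [div_le_iff₀ (by linarith)]
      linarith
    rw [sub_mul, one_div_mul_eq_div]
    by_contra hcon
    push Not at hcon
    have h6 : (L : ℝ) / S ≤ L / 2 := div_le_div_of_nonneg_left hL0 (by norm_num) hS2
    have h7 : N ≤ L / 2 := by
      have : 0 ≤ ε * L := by positivity
      linarith
    have h8 : ε * N ≤ ε * (L / 2) := mul_le_mul_of_nonneg_left h7 hε.le
    nlinarith
  · obtain ⟨C, hC0, hC⟩ := one_base _ _ indep
    obtain ⟨C', hC0', hC'⟩ := two_bases _ _ indep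
    obtain ⟨R, hR⟩ : ∃ R : ℝ, R = |Real.log (4 * F C 2)| / Real.log 2 +
      |Real.log (3 * (C' + 1 + 1))| / Real.log 3 := ⟨_, rfl⟩
    have hl2 : 0 < Real.log 2 := Real.log_pos (by norm_num)
    have hl3 : 0 < Real.log 3 := Real.log_pos (by norm_num)
    have hR1 : |Real.log (4 * F C 2)| / Real.log 2 ≤ R := by
      rw [hR]
      have : 0 ≤ |Real.log (3 * (C' + 1 + 1))| / Real.log 3 := by positivity
      linarith
    have hR2 : |Real.log (3 * (C' + 1 + 1))| / Real.log 3 ≤ R := by
      rw [hR]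
      have : 0 ≤ |Real.log (4 * F C 2)| / Real.log 2 := by positivity
      linarith
    have hF0 : 0 < F C 2 := by
      unfold F
      positivity
    refine ⟨R, fun b hb M hM => ?_, fun b b' hb hb' X hX => ?_⟩
    · obtain ⟨k, hk⟩ : ∃ k, k = changes b (Real.pi + Real.exp 1) M := ⟨_, rfl⟩
      obtain ⟨k', hk'⟩ : ∃ k', k' = changes b (Real.pi - Real.exp 1) M := ⟨_, rfl⟩
      have h1 := hC Real.pi b (M + 1) k k' hb
      rw [pi_add, pi_sub] at h1
      have h2 := complexity_changes b (Real.pi + Real.exp 1) M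
      have h3 := complexity_changes b (Real.pi - Real.exp 1) M
      rw [← hk] at h2 ⊢
      rw [← hk'] at h3 ⊢
      have h4 := F_mono hC0.le (show complexity b (Real.pi + Real.exp 1) k (M + 1) +
        complexity b (Real.pi - Real.exp 1) k' (M + 1) ≤ 2 by omega)
      have hMR : (1 : ℝ) ≤ M := by exact_mod_cast hM
      have h5 : (M : ℝ) ≤ 2 ^ (k + k') * (4 * F C 2) := by
        have h6 : (∑ i ∈ range (k + k' + 1), (2 : ℝ) ^ (i + 1)) ≤ 2 ^ (k + k') * 4 := by
          rw [geom, pow_succ, pow_succ]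
          linarith
        have h7 : 0 ≤ ∑ i ∈ range (k + k' + 1), (2 : ℝ) ^ (i + 1) :=
          Finset.sum_nonneg fun i _ => by positivity
        have h8 := mul_le_mul h6 h4 (by unfold F; positivity) (by positivity)
        push_cast at h1
        linarith
      have h6 := Real.log_le_log (by linarith) h5
      rw [Real.log_mul (by positivity) (by positivity), Real.log_pow] at h6
      have h7 : Real.log M ≤ (k + k' + |Real.log (4 * F C 2)| / Real.log 2) * Real.log 2 := by
        rw [add_mul, div_mul_cancel₀ _ hl2.ne']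
        have := le_abs_self (Real.log (4 * F C 2))
        push_cast at h6
        linarith
      rw [← div_le_iff₀ hl2] at h7
      linarith
    · have hl := log_ge b hb
      have hl' := log_ge b' hb'
      obtain ⟨l, hll⟩ : ∃ l : ℝ, l = Real.log b := ⟨_, rfl⟩
      obtain ⟨l', hll'⟩ : ∃ l' : ℝ, l' = Real.log b' := ⟨_, rfl⟩
      rw [← hll] at hl ⊢
      rw [← hll'] at hl' ⊢
      obtain ⟨M, hM⟩ : ∃ M : ℕ, M = ⌊X / l⌋₊ := ⟨_, rfl⟩
      obtain ⟨M', hM'⟩ : ∃ M' : ℕ, M' = ⌊X / l'⌋₊ := ⟨_, rfl⟩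
      rw [← hM, ← hM']
      obtain ⟨k, hk⟩ : ∃ k, k = changes b (Real.pi + Real.exp 1) M := ⟨_, rfl⟩
      obtain ⟨k', hk'⟩ : ∃ k', k' = changes b' (Real.pi - Real.exp 1) M' := ⟨_, rfl⟩
      have h1 := hC' Real.pi b b' (M + 1) (M' + 1) k k' hb hb'
      rw [pi_add, pi_sub, ← hll, ← hll'] at h1
      have h2 := complexity_changes b (Real.pi + Real.exp 1) M
      have h3 := complexity_changes b' (Real.pi - Real.exp 1) M'
      rw [← hk] at h2 ⊢
      rw [← hk'] at h3 ⊢
      have h2R : (complexity b (Real.pi + Real.exp 1) k (M + 1) : ℝ) ≤ 1 := by exact_mod_cast h2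
      have h3R : (complexity b' (Real.pi - Real.exp 1) k' (M' + 1) : ℝ) ≤ 1 := by exact_mod_cast h3
      have hl0 : 0 < l := by linarith
      have hl0' : 0 < l' := by linarith
      have h4 : X ≤ ((M + 1 : ℕ) : ℝ) * l := by
        have h5 := Nat.lt_floor_add_one (X / l)
        rw [← hM, div_lt_iff₀ hl0] at h5
        push_cast
        linarith
      have h4' : X ≤ ((M' + 1 : ℕ) : ℝ) * l' := by
        have h5 := Nat.lt_floor_add_one (X / l')
        rw [← hM', div_lt_iff₀ hl0'] at h5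
        push_cast
        linarith
      have h5 : X ≤ 3 ^ (k + k' + 1) * ((C' + 1) * (l + l')) := by
        refine (le_min h4 h4').trans (h1.trans (mul_le_mul_of_nonneg_left ?_ (by positivity)))
        have h6 := mul_le_mul_of_nonneg_right h2R hl0.le
        have h7 := mul_le_mul_of_nonneg_right h3R hl0'.le
        linarith
      have h6 : X / (l + l') ≤ 3 ^ (k + k') * (3 * (C' + 1 + 1)) := by
        rw [div_le_iff₀ (by linarith)]
        have h7 : 0 < (3 : ℝ) ^ (k + k') := by positivity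
        rw [pow_succ] at h5
        have h8 : 0 ≤ (3 : ℝ) ^ (k + k') * 3 * (l + l') := by positivity
        nlinarith
      have h7 := Real.log_le_log (by positivity) h6
      rw [Real.log_mul (by positivity) (by positivity), Real.log_pow] at h7
      have h8 : Real.log (X / (l + l')) ≤
          (k + k' + |Real.log (3 * (C' + 1 + 1))| / Real.log 3) * Real.log 3 := by
        rw [add_mul, div_mul_cancel₀ _ hl3.ne']
        have := le_abs_self (Real.log (3 * (C' + 1 + 1)))
        push_cast at h7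
        linarith
      rw [← div_le_iff₀ hl3] at h8
      linarith
  · intro S hS
    have hex : ∀ p : (ℚ × ℚ × ℚ) × (ℚ × ℚ × ℚ), ∃ C : ℝ, 0 < C ∧ (p.1 ∈ S → p.2 ∈ S → p.1 ≠ p.2 →
        ∀ (ξ : ℝ) (b b' L L' k k' : ℕ), 2 ≤ b → 2 ≤ b' →
        min (L * Real.log b) (L' * Real.log b') ≤ 3 ^ (k + k' + 1) *
          (complexity b (form ξ p.1) k L * Real.log b +
            complexity b' (form ξ p.2) k' L' * Real.log b' +
              C * (Real.log b + Real.log b'))) := by
      intro p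
      by_cases h : p.1 ∈ S ∧ p.2 ∈ S ∧ p.1 ≠ p.2
      · obtain ⟨C, hC0, hC⟩ := two_bases p.1 p.2 (hS h.1 h.2.1 h.2.2)
        exact ⟨C, hC0, fun _ _ _ => hC⟩
      · exact ⟨1, one_pos, fun h1 h2 h3 => absurd ⟨h1, h2, h3⟩ h⟩
    choose C hC0 hC using hex
    refine ⟨1 + ∑ p ∈ S ×ˢ S, C p, by
      have : 0 ≤ ∑ p ∈ S ×ˢ S, C p := Finset.sum_nonneg fun p _ => (hC0 p).le
      linarith, ?_⟩
    rintro ξ X k f hf g hg ⟨b, L, hb, hX, h1⟩ ⟨b', L', hb', hX', h2⟩
    by_contra hne
    have h3 := hC (f, g) hf hg hne ξ b b' L L' k k hb hb'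
    have h4 : C (f, g) ≤ 1 + ∑ p ∈ S ×ˢ S, C p := by
      have := Finset.single_le_sum (f := C) (fun p _ => (hC0 p).le)
        (Finset.mem_product.2 ⟨hf, hg⟩ : (f, g) ∈ S ×ˢ S)
      linarith
    have hl := log_ge b hb
    have hl' := log_ge b' hb'
    obtain ⟨P, hP⟩ : ∃ P : ℝ, P = 3 ^ (2 * k + 1) := ⟨_, rfl⟩
    have hP0 : 0 < P := by rw [hP]; positivity
    rw [← hP] at h1 h2
    rw [show k + k + 1 = 2 * k + 1 by ring, ← hP] at h3
    have h5 := (le_min hX hX').trans h3
    rw [lt_div_iff₀ (by positivity)] at h1 h2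
    simp only at h5
    obtain ⟨D, hD⟩ : ∃ D : ℝ, D = 1 + ∑ p ∈ S ×ˢ S, C p := ⟨_, rfl⟩
    rw [← hD] at h1 h2 h4
    have h6 : C (f, g) * (Real.log b + Real.log b') ≤ D * (Real.log b + Real.log b') :=
      mul_le_mul_of_nonneg_right h4 (by linarith)
    have h7 := mul_le_mul_of_nonneg_left h6 hP0.le
    nlinarith

end Pool.Agent.Results.MP_363d4d_nt.DigitRecurrences
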