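import Mathlib
import Pool.Agent.Run7.h168.Lin.Cut

/-!
# The digits of the integer linear forms in `π` and `e`, described piece by piece

Let `N_b(y; r, K, L)` be the least `k` such that, after the removal of at most `K` of the places `1, …, L`, the
digits of `y` in base `b` at the places `u+1, …, v` of every interval without removed places are terms of a
sequence `s` of base `b` digits for which `X^(v+1)` divides `P(X, s_1 X + ⋯ + s_v X^v)` for some nonzero
polynomial `P(X, Y)` of degree `≤ r` in `Y` and of degree `≤ k + r u` in `X`.  So the sequence `s` may change at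
every removed place and the price of a piece is counted relative to its beginning: for `r ≥ 1` a piece which is a
copy of a part of the digits which starts earlier costs nothing (`desc_of_copy`), and `N` is not greater than the
algebraic complexity with `K` errors (`cutC_le_complexity`).

Let `x` be `e`, `π` or the logarithm of a rational number.  For all `n` and `r` there is `A` such that for ALL
real numbers `t_1, …, t_n` and all `n+1` integer linear forms in `x, t_1, …, t_n, 1`, divided by integers
`m_i ≥ 1`, for which the determinant of the coefficients of `x, t_1, …, t_n` is not zero, in all bases, for all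
numbers `K_i` of removed places and all lengths,

`min_i L_i log b_i ≤ A^(K_0 + ⋯ + K_n + 1) (∑_i (N_(b_i)(y_i; r, K_i, L_i) + 1) log b_i + log H)`,

where `H` bounds the coefficients of `x` and of the `t_j` and the denominators.  The constant term of the forms is
arbitrary.  For `n = 1`, `x = e`, `t_1 = π` this says: at every scale the numbers `(a π + b e + c)/m` with
`log max(|a|, |b|, m)` small compared to the scale which have simple digits at this scale all have proportional
`(a, b)`.  For instance `π + e` and `π - e` do not both have simple digits, and if `π + e` has simple digits at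
some scale, then all the numbers `(a π + b e + c)/m` of small height with `a ≠ b` have complicated digits at this
scale.

Proof.  By elimination of the `t_j` the forms satisfy `δ x + k = ∑ λ_i m_i y_i` with the determinant `δ ≠ 0`.  If
`P_i(y_i)` are very small for integer polynomials `P_i`, then the elimination of the `y_i` by resultants gives an
integer polynomial with a very small value at `x`; it is not zero, because for a generic `X` the number
`δ X + k` is not a combination of roots of the `P_i`.  All the estimates are uniform in the `t_j`.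
-/

set_option autoImplicit false

namespace Pool.Agent.Results.MP_363d4d_nt.LinearFormsPieceByPiece

open Finset Polynomial

/-- the `i`-th digit of `x` after the point in base `b` -/
noncomputable def digit (b : ℕ) (x : ℝ) (i : ℕ) : ℤ := ⌊x * (b : ℝ) ^ i⌋ % (b : ℤ)

/-- the polynomial `s_1 X + s_2 X^2 + ⋯ + s_L X^L` -/
noncomputable def seqPoly (s : ℕ → ℤ) (L : ℕ) : ℚ[X] := ∑ l ∈ Icc 1 L, C (s l : ℚ) * X ^ l

/-- there is a nonzero polynomial `P(X, Y)` over `ℚ` of degree `≤ r` in `Y` and `≤ k` in `X` such
that `P(X, S(X))` is divisible by `X^(L+1)`, where `S` is the polynomial of the first `L` terms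
of `s` -/
def AlgRelation (s : ℕ → ℤ) (r L k : ℕ) : Prop :=
  ∃ P : ℚ[X][X], P ≠ 0 ∧ P.natDegree ≤ r ∧ (∀ j, (P.coeff j).natDegree ≤ k) ∧
    X ^ (L + 1) ∣ P.eval (seqPoly s L)

/-- the digits of `y` at the places `u+1, …, v` are the terms at these places of a sequence `s` of base `b`
digits, and the first `v` terms of `s` satisfy an algebraic relation of degree `≤ r` with coefficients of
degree `≤ k + r u` -/
def Described (b : ℕ) (y : ℝ) (r k u v : ℕ) : Prop :=
  ∃ s : ℕ → ℤ, (∀ l, 0 ≤ s l ∧ s l < b) ∧ (∀ l, u < l → l ≤ v → s l = digit b y l) ∧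
    AlgRelation s r v (k + r * u)

/-- there is a set `T` of at most `K` places such that the digits of `y` at the places `u+1, …, v ≤ L` are
described with the parameter `k`, whenever none of these places is in `T` -/
def PieceByPiece (b : ℕ) (y : ℝ) (r K L k : ℕ) : Prop :=
  ∃ T : Finset ℕ, T.card ≤ K ∧
    ∀ u v, u ≤ v → v ≤ L → (∀ t ∈ T, t ≤ u ∨ v < t) → Described b y r k u v

/-- `N_b(y; r, K, L)`: the least such `k` -/
noncomputable def complexity (b : ℕ) (y : ℝ) (r K L : ℕ) : ℕ := sInf {k : ℕ | PieceByPiece b y r K L k}

theorem result (x : ℝ) (hx : x = Real.exp 1 ∨ x = Real.pi ∨ ∃ q : ℚ, 0 < q ∧ q ≠ 1 ∧ x = Real.log q)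
    (n r : ℕ) : ∃ A : ℝ, 1 ≤ A ∧
    ∀ (a : Matrix (Fin (n + 1)) (Fin (n + 1)) ℤ) (t : Fin n → ℝ) (c m : Fin (n + 1) → ℤ) (H : ℝ),
      a.det ≠ 0 → (∀ i j, |(a i j : ℝ)| ≤ H) → (∀ i, 1 ≤ m i ∧ (m i : ℝ) ≤ H) →
      ∀ y : Fin (n + 1) → ℝ, (∀ i, y i = (a i 0 * x + ∑ j : Fin n, a i j.succ * t j + c i) / m i) →
      ∀ b : Fin (n + 1) → ℕ, (∀ i, 2 ≤ b i) → ∀ K L : Fin (n + 1) → ℕ,
      ∀ M : ℝ, (∀ i, M ≤ L i * Real.log (b i)) →
      M ≤ A ^ (∑ i, K i + 1) *
        (∑ i, (complexity (b i) (y i) r (K i) (L i) + 1) * Real.log (b i) + Real.log H) :=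
  Pool.Agent.Run7.h168.Lin.cuts_lin x (Pool.Agent.R473.JC.measT_three x hx) n r

end Pool.Agent.Results.MP_363d4d_nt.LinearFormsPieceByPiece
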