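import Mathlib
import Pool.Agent.Run7.h683.MR.X

set_option autoImplicit false

/-!
# MP_363d4d_nt: `π + e`, `π - e` and all polynomials in `π` and `e` in random mixed radices

The page asks whether `π + e` and `π - e` are irrational. We look at the expansions of these numbers, and of the values
`f(π, e)` of all integral polynomials `f`, in mixed radices: the place values are `1 / (p_0 p_1 ⋯ p_n)`, where `p_k` are
independent random primes, `p_k` uniformly distributed on the primes up to `(k + 2) ^ θ`, `θ > 1`. The tail of the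
expansion of `y` after the place `n` is the fractional part of `p_0 ⋯ p_(n-1) y`.

For every degree `d` there are polynomials `F_N`, which do not depend on the radix, such that

(A) for all large `N`, `F_N = 0`, or `F_N` is irreducible of degree at most `d`, contains both variables, has coefficients
at most `exp (N ^ a)`, and `|F_N(π, e)| < exp (- N ^ b)`, where `0 < a < b < 1`;

(B) `π` and `e` satisfy an algebraic relation of degree at most `d` over `ℚ` if and only if `F_N ≠ 0` for all large `N`;

(C) almost surely, for all `d`, for all integral polynomials `f_1, …, f_m` of degree at most `d`, all `L` and `ε > 0`, for all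
large `N`: if the `f_j` are linearly independent modulo the constants and the multiples of `F_N`, the numbers
`f_1(π, e), …, f_m(π, e)` are jointly equidistributed up to the place `N`, with words of length `L`, up to `ε`;

(D) almost surely, for all `L` and `ε > 0`, for all large `N`, at least two of the three numbers `π + e`, `π - e`, `π e` are
equidistributed up to the place `N`, with words of length `L`, up to `ε`.

So at every place the polynomials in `π` and `e` of bounded degree which are not jointly equidistributed are accounted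
for by the multiples of ONE irreducible polynomial with an extremely small value. (Remark: if `π + e = u / v` is rational,
this polynomial is `± (v (X + Y) - u)` for all large `N`; this is not part of the formal statement.)

Proof. The second moment of the exponential sums of one number `y` up to the place `N` is small unless `y` is very close
to a rational number with a denominator `≤ exp (N ^ a)` (bilinear sums over the last two primes, and a descent; see
MP_5b6025_nt.RandomMixedRadix). If this happens for `y = ∑ c_j f_j(π, e)`, then the value of an integral polynomial of degree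
`≤ d` is extremely small in terms of its height; by helper168's theorem (MP_a2f59b_nt.NearAlgebraicRelations), which rests on
the transcendence measure of `e`, all such polynomials at one height are multiples of one irreducible polynomial. The
transcendence measure of `π` shows that it contains both variables.
-/

namespace Pool.Agent.Results.MP_363d4d_nt.PolynomialsInPiAndE

open Filter Topology MeasureTheory ProbabilityTheory

/-- the primes up to `(k + 2) ^ θ` -/
noncomputable def primes (θ : ℝ) (k : ℕ) : Finset ℕ := Nat.primesLE ⌊((k : ℝ) + 2) ^ θ⌋₊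

/-- `p 0, p 1, …` are independent random primes, `p k` is uniformly distributed on the primes up to `(k + 2) ^ θ` -/
structure RandomPrimes (θ : ℝ) {Ω : Type} [MeasurableSpace Ω] (P : Measure Ω) (p : ℕ → Ω → ℕ) : Prop where
  mem : ∀ k ω, p k ω ∈ primes θ k
  indep : iIndepFun p P
  uniform : ∀ k, ∀ q ∈ primes θ k, P.real {ω | p k ω = q} = 1 / ((primes θ k).card : ℝ)

/-- the product `p 0 ⋯ p (n - 1)` -/
def prod (p : ℕ → ℕ) (n : ℕ) : ℕ := ∏ k ∈ Finset.range n, p k

/-- the numbers `x i` are jointly equidistributed in the mixed radix `p` up to the place `N`, with words of length `L`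
and up to the error `ε`: for all boxes the number of the places `n < N`, such that the fractional parts of
`p 0 ⋯ p (n + l - 1) * x i`, `l < L`, are in the box, is equal to the volume of the box times `N` up to `ε N` -/
def Equi (p : ℕ → ℕ) {m : ℕ} (x : Fin m → ℝ) (L N : ℕ) (ε : ℝ) : Prop :=
  ∀ u w : Fin L → Fin m → ℝ, (∀ l i, 0 ≤ u l i ∧ u l i ≤ w l i ∧ w l i ≤ 1) →
    |(((Finset.range N).filter fun n => ∀ l i, u l i ≤ Int.fract ((prod p (n + (l : ℕ)) : ℝ) * x i) ∧
      Int.fract ((prod p (n + (l : ℕ)) : ℝ) * x i) < w l i).card : ℝ) - (∏ l, ∏ i, (w l i - u l i)) * N| ≤ ε * N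

/-- the value of a polynomial in two variables at `(π, e)` -/
noncomputable def value (f : MvPolynomial (Fin 2) ℤ) : ℝ := MvPolynomial.aeval ![Real.pi, Real.exp 1] f

/-- the polynomials `f j` are linearly independent modulo the multiples of `F` and the constants -/
def FreeModulo {m : ℕ} (F : MvPolynomial (Fin 2) ℤ) (f : Fin m → MvPolynomial (Fin 2) ℤ) : Prop :=
  ∀ (c : Fin m → ℤ) (u : ℤ), F ∣ ∑ j, MvPolynomial.C (c j) * f j - MvPolynomial.C u → c = 0

open Run7.h683.MR in
/-- In almost all the mixed radices of random primes all tuples of integral polynomials in `π` and `e` are jointly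
equidistributed up to `N`, if they are linearly independent modulo constants and multiples of one irreducible
polynomial; two of the three numbers `π + e`, `π - e`, `π e` are equidistributed up to `N` for all large `N`. -/
theorem result (θ : ℝ) (hθ : 1 < θ) :
    ∃ a b : ℝ, 0 < a ∧ a < b ∧ b < 1 ∧ ∃ F : ℕ → ℕ → MvPolynomial (Fin 2) ℤ,
      -- (A) the exceptional polynomials
      (∀ d : ℕ, 1 ≤ d → ∀ᶠ N : ℕ in atTop, F d N = 0 ∨
        (Irreducible (F d N) ∧ 0 < (F d N).degreeOf 0 ∧ 0 < (F d N).degreeOf 1 ∧ (F d N).totalDegree ≤ d ∧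
          (∀ s, |(((F d N).coeff s : ℤ) : ℝ)| ≤ Real.exp ((N : ℝ) ^ a)) ∧
          |value (F d N)| < Real.exp (-(N : ℝ) ^ b))) ∧
      -- (B) algebraic dependence
      (∀ d : ℕ, 1 ≤ d → ((∃ R : MvPolynomial (Fin 2) ℤ, R ≠ 0 ∧ R.totalDegree ≤ d ∧ value R = 0) ↔
        ∀ᶠ N : ℕ in atTop, F d N ≠ 0)) ∧
      (∀ (Ω : Type) [MeasurableSpace Ω] (P : Measure Ω) [IsProbabilityMeasure P] (p : ℕ → Ω → ℕ),
        RandomPrimes θ P p →
          -- (C) equidistribution outside the multiples of `F d N`
          (∀ᵐ ω ∂P, ∀ d : ℕ, 1 ≤ d → ∀ (m : ℕ) (f : Fin m → MvPolynomial (Fin 2) ℤ), (∀ j, (f j).totalDegree ≤ d) →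
            ∀ (L : ℕ) (ε : ℝ), 0 < ε → ∀ᶠ N : ℕ in atTop, FreeModulo (F d N) f →
              Equi (fun k => p k ω) (fun j => value (f j)) L N ε) ∧
          -- (D) two of the three numbers
          (∀ᵐ ω ∂P, ∀ (L : ℕ) (ε : ℝ), 0 < ε → ∀ᶠ N : ℕ in atTop,
            (Equi (fun k => p k ω) (fun _ : Fin 1 => Real.pi + Real.exp 1) L N ε ∧
              Equi (fun k => p k ω) (fun _ : Fin 1 => Real.pi - Real.exp 1) L N ε) ∨
            (Equi (fun k => p k ω) (fun _ : Fin 1 => Real.pi + Real.exp 1) L N ε ∧
              Equi (fun k => p k ω) (fun _ : Fin 1 => Real.pi * Real.exp 1) L N ε) ∨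
            (Equi (fun k => p k ω) (fun _ : Fin 1 => Real.pi - Real.exp 1) L N ε ∧
              Equi (fun k => p k ω) (fun _ : Fin 1 => Real.pi * Real.exp 1) L N ε))) ∧
      -- such random primes exist
      ∃ (Ω : Type) (_ : MeasurableSpace Ω) (P : Measure Ω) (_ : IsProbabilityMeasure P) (p : ℕ → Ω → ℕ),
        RandomPrimes θ P p := by
  obtain ⟨a, b, ha, hab, hb, h⟩ := poly_structure.{0} (growth θ hθ)
  obtain ⟨F, hF1, hF2⟩ := h 1 ![Real.exp 1] measM_e Real.pi
  have hv : ∀ f : MvPolynomial (Fin 2) ℤ, pv Real.pi ![Real.exp 1] f = value f := by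
    intro f
    rw [pv_eq, cons_pair]
    rfl
  have hA : ∀ d : ℕ, 1 ≤ d → ∀ᶠ N : ℕ in atTop, F d N = 0 ∨
        (Irreducible (F d N) ∧ 0 < (F d N).degreeOf 0 ∧ 0 < (F d N).degreeOf 1 ∧ (F d N).totalDegree ≤ d ∧
          (∀ s, |(((F d N).coeff s : ℤ) : ℝ)| ≤ Real.exp ((N : ℝ) ^ a)) ∧
          |value (F d N)| < Real.exp (-(N : ℝ) ^ b)) := by
    intro d hd
    filter_upwards [(hF1 d hd).1, both_vars (w := Real.exp 1) ha hab measM_pi d] with N hN hN2
    rcases hN with hN | ⟨k1, k2, k3, k4, k5⟩
    · exact Or.inl hN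
    · rw [hv] at k5
      exact Or.inr ⟨k1, k2, hN2 _ k1.ne_zero k3 k4 k5, k3, k4, k5⟩
  have hC : ∀ (Ω : Type) [MeasurableSpace Ω] (P : Measure Ω) [IsProbabilityMeasure P] (p : ℕ → Ω → ℕ),
      RandomPrimes θ P p → ∀ᵐ ω ∂P, ∀ d : ℕ, 1 ≤ d → ∀ (m : ℕ) (f : Fin m → MvPolynomial (Fin 2) ℤ),
        (∀ j, (f j).totalDegree ≤ d) → ∀ (L : ℕ) (ε : ℝ), 0 < ε → ∀ᶠ N : ℕ in atTop, FreeModulo (F d N) f →
          Equi (fun k => p k ω) (fun j => value (f j)) L N ε := by
    intro Ω _ P _ p hp
    filter_upwards [hF2 Ω P p (uniform_of_indep hp.mem hp.indep hp.uniform)] with ω hω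
    intro d hd m f hf L ε hε
    filter_upwards [hω d hd m f hf L ε hε] with N hN
    intro hfree
    have h2 := hN hfree
    simp only [hv] at h2
    exact h2
  refine ⟨a, b, ha, hab, hb, F, hA, fun d hd => ?_, ?_, ?_⟩
  · have h1 := (hF1 d hd).2
    simp only [hv] at h1
    exact h1
  · intro Ω _ P _ p hp
    refine ⟨hC Ω P p hp, ?_⟩
    filter_upwards [hC Ω P p hp] with ω hω
    intro L ε hε
    have hval : value (MvPolynomial.X 0 + MvPolynomial.X 1) = Real.pi + Real.exp 1 ∧
        value (MvPolynomial.X 0 - MvPolynomial.X 1) = Real.pi - Real.exp 1 ∧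
        value (MvPolynomial.X 0 * MvPolynomial.X 1) = Real.pi * Real.exp 1 := by
      unfold value
      refine ⟨?_, ?_, ?_⟩ <;> simp
    have hdeg : (MvPolynomial.X 0 + MvPolynomial.X 1 : MvPolynomial (Fin 2) ℤ).totalDegree ≤ 2 ∧
        (MvPolynomial.X 0 - MvPolynomial.X 1 : MvPolynomial (Fin 2) ℤ).totalDegree ≤ 2 ∧
        (MvPolynomial.X 0 * MvPolynomial.X 1 : MvPolynomial (Fin 2) ℤ).totalDegree ≤ 2 := by
      refine ⟨?_, ?_, ?_⟩
      · refine (MvPolynomial.totalDegree_add _ _).trans ?_
        rw [MvPolynomial.totalDegree_X, MvPolynomial.totalDegree_X]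
        norm_num
      · refine (MvPolynomial.totalDegree_sub _ _).trans ?_
        rw [MvPolynomial.totalDegree_X, MvPolynomial.totalDegree_X]
        norm_num
      · refine (MvPolynomial.totalDegree_mul _ _).trans ?_
        rw [MvPolynomial.totalDegree_X, MvPolynomial.totalDegree_X]
    filter_upwards [hA 2 (by norm_num),
      hω 2 (by norm_num) 1 (fun _ => MvPolynomial.X 0 + MvPolynomial.X 1) (fun _ => hdeg.1) L ε hε,
      hω 2 (by norm_num) 1 (fun _ => MvPolynomial.X 0 - MvPolynomial.X 1) (fun _ => hdeg.2.1) L ε hε,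
      hω 2 (by norm_num) 1 (fun _ => MvPolynomial.X 0 * MvPolynomial.X 1) (fun _ => hdeg.2.2) L ε hε] with N g0 g1 g2 g3
    rw [hval.1] at g1
    rw [hval.2.1] at g2
    rw [hval.2.2] at g3
    have hF0 : F 2 N = 0 ∨ 0 < (F 2 N).degreeOf 1 := by
      rcases g0 with g0 | g0
      · exact Or.inl g0
      · exact Or.inr g0.2.2.1
    by_cases e1 : Excl (F 2 N) (MvPolynomial.X 0 + MvPolynomial.X 1)
    · have e2 : ¬ Excl (F 2 N) (MvPolynomial.X 0 - MvPolynomial.X 1) := fun h1 => excl_sum_diff hF0 ⟨e1, h1⟩
      have e3 : ¬ Excl (F 2 N) (MvPolynomial.X 0 * MvPolynomial.X 1) := fun h1 => excl_sum_mul hF0 ⟨e1, h1⟩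
      exact Or.inr (Or.inr ⟨g2 (freeMod_single e2), g3 (freeMod_single e3)⟩)
    · by_cases e2 : Excl (F 2 N) (MvPolynomial.X 0 - MvPolynomial.X 1)
      · have e3 : ¬ Excl (F 2 N) (MvPolynomial.X 0 * MvPolynomial.X 1) := fun h1 => excl_diff_mul hF0 ⟨e2, h1⟩
        exact Or.inr (Or.inl ⟨g1 (freeMod_single e1), g3 (freeMod_single e3)⟩)
      · exact Or.inl ⟨g1 (freeMod_single e1), g2 (freeMod_single e2)⟩
  · obtain ⟨Ω, i1, P, i2, p, h5, h6, h7⟩ := exists_uniform (Sk θ) (growth θ hθ).ne
    exact ⟨Ω, i1, P, i2, p, ⟨h5, h6, h7⟩⟩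

end Pool.Agent.Results.MP_363d4d_nt.PolynomialsInPiAndE
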